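import Pool.Agent.K3h75.ND.StmA
import Pool.Agent.TH214.RM.FF
import Pool.Agent.W418.Hyp2

/-!
# The function field of an affine hypersurface (brick AFF)
-/

set_option autoImplicit false

namespace Pool.Agent.K3h67.ND

open MvPolynomial Pool.Agent.K3h75.ND

theorem aeval_dh {R A : Type} [CommRing R] [CommRing A] [Algebra R A] {m : ℕ}
    (t : Fin (m + 1) → A) (ht : t 0 = 1) (G : MvPolynomial (Fin (m + 1)) R) :
    aeval (fun i : Fin m => t i.succ) (dh G) = aeval t G := by
  unfold dh
  rw [← AlgHom.comp_apply]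
  congr 1
  apply MvPolynomial.algHom_ext
  intro j
  rw [AlgHom.comp_apply, aeval_X, aeval_X]
  refine Fin.cases ?_ (fun i => ?_) j
  · simp [ht]
  · simp

theorem dh_mul {R : Type} [CommRing R] {m : ℕ} (P Q : MvPolynomial (Fin (m + 1)) R) :
    dh (P * Q) = dh P * dh Q := by
  unfold dh
  rw [map_mul]

theorem dh_monomial {R : Type} [CommRing R] {m : ℕ} (a : ℕ) (s : Fin m →₀ ℕ) (c : R) :
    dh (monomial (Finsupp.cons a s) c) = monomial s c := by
  unfold dh
  rw [aeval_monomial, Finsupp.prod_fintype _ _ (fun _ => pow_zero _), Fin.prod_univ_succ,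
    monomial_eq, Finsupp.prod_fintype _ _ (fun _ => pow_zero _)]
  simp [algebraMap_eq]

theorem exists_form {R : Type} [CommRing R] {m : ℕ} (P : MvPolynomial (Fin m) R) :
    ∃ (e : ℕ) (Q : MvPolynomial (Fin (m + 1)) R), Q.IsHomogeneous e ∧ dh Q = P := by
  classical
  refine ⟨P.totalDegree, ∑ s ∈ P.support,
    monomial (Finsupp.cons (P.totalDegree - s.degree) s) (coeff s P), ?_, ?_⟩
  · refine IsHomogeneous.sum _ _ _ fun s hs => ?_
    apply isHomogeneous_monomial
    have h1 : s.degree ≤ P.totalDegree := le_totalDegree hs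
    have h2 : (Finsupp.cons (P.totalDegree - s.degree) s).degree =
        (P.totalDegree - s.degree) + s.degree := by
      rw [Finsupp.degree_eq_sum, Fin.sum_univ_succ, Finsupp.degree_eq_sum]
      simp
    rw [h2]
    omega
  · conv_rhs => rw [P.as_sum]
    have h : ∀ (T : Finset (Fin m →₀ ℕ)) (f : (Fin m →₀ ℕ) → MvPolynomial (Fin (m + 1)) R),
        dh (∑ s ∈ T, f s) = ∑ s ∈ T, dh (f s) := by
      intro T f
      unfold dh
      rw [map_sum]
    rw [h]
    refine Finset.sum_congr rfl fun s _ => ?_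
    rw [dh_monomial]

theorem aff_core {E F : Type} [Field E] [Field F] [Algebra E F] {n : ℕ}
    (G : MvPolynomial (Fin (n + 2)) E) (x : Fin (n + 2) → F) (hx0 : x 0 = 1)
    (hdh : dh G ≠ 0)
    (hG : aeval x G = 0) (hgen : IntermediateField.adjoin E (Set.range x) = ⊤)
    (hdvd : ∀ (e : ℕ) (P : MvPolynomial (Fin (n + 2)) E), P.IsHomogeneous e →
      aeval x P = 0 → G ∣ P) :
    Irreducible (dh G) ∧
      Nonempty (F ≃+* FractionRing (MvPolynomial (Fin (n + 1)) E ⧸ Ideal.span {dh G})) := by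
  classical
  let φ : MvPolynomial (Fin (n + 1)) E →ₐ[E] F := aeval (fun i : Fin (n + 1) => x i.succ)
  have hφ : ∀ Q : MvPolynomial (Fin (n + 2)) E, φ (dh Q) = aeval x Q := fun Q =>
    aeval_dh x hx0 Q
  have hker : RingHom.ker φ = Ideal.span {dh G} := by
    apply le_antisymm
    · intro P hP
      obtain ⟨e, Q, hQe, hQ⟩ := exists_form P
      have h1 : aeval x Q = 0 := by
        rw [← hφ, hQ]
        exact hP
      obtain ⟨H, hH⟩ := hdvd e Q hQe h1
      rw [Ideal.mem_span_singleton, ← hQ, hH, dh_mul]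
      exact dvd_mul_right _ _
    · rw [Ideal.span_le, Set.singleton_subset_iff]
      change φ (dh G) = 0
      rw [hφ, hG]
  have hprime : (Ideal.span {dh G}).IsPrime := by
    rw [← hker]
    exact RingHom.ker_isPrime _
  refine ⟨((Ideal.span_singleton_prime hdh).1 hprime).irreducible, ?_⟩
  let B := MvPolynomial (Fin (n + 1)) E ⧸ Ideal.span {dh G}
  let ψ : B →+* F := Ideal.Quotient.lift (Ideal.span {dh G}) (φ : MvPolynomial (Fin (n + 1)) E →+* F)
    (fun a ha => by
      have h1 : a ∈ RingHom.ker φ := by rw [hker]; exact ha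
      exact h1)
  have hψ : Function.Injective ψ := by
    rw [injective_iff_map_eq_zero]
    intro a ha
    obtain ⟨a, rfl⟩ := Ideal.Quotient.mk_surjective a
    rw [Ideal.Quotient.eq_zero_iff_mem, ← hker]
    exact ha
  let _ : Algebra B F := ψ.toAlgebra
  have _ : FaithfulSMul B F := (faithfulSMul_iff_algebraMap_injective B F).2 hψ
  have _ : IsFractionRing B F := by
    apply IsFractionRing.of_field
    intro z
    have hz : z ∈ IntermediateField.adjoin E (Set.range x) := by rw [hgen]; trivial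
    obtain ⟨r, s, hrs⟩ := (IntermediateField.mem_adjoin_range_iff E x z).1 hz
    refine ⟨Ideal.Quotient.mk _ (dh r), Ideal.Quotient.mk _ (dh s), ?_⟩
    change z = φ (dh r) / φ (dh s)
    rw [hφ, hφ, hrs]
  exact ⟨(FractionRing.algEquiv B F).symm.toRingEquiv⟩

theorem dh_ne_zero {E : Type} [Field E] {m : ℕ} (G : MvPolynomial (Fin (m + 1)) E) (hG : G ≠ 0)
    (d : ℕ) (hGd : G.IsHomogeneous d) : dh G ≠ 0 := by
  intro h
  have h1 := aeval_dh (R := E) (Pool.Agent.H918R2.Quad.tau (R := E) (0 : Fin (m + 1)))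
    (by simp [Pool.Agent.H918R2.Quad.tau]) G
  rw [h, map_zero] at h1
  exact Pool.Agent.TH214.RM.deh_ne_zero (0 : Fin (m + 1)) G hG d hGd h1.symm

/-- **AFF**: the function field of an affine hypersurface. -/
theorem t_AFF : S_AFF := by
  intro E _ n d G hGd hG hX
  obtain ⟨F, _, _, x, b, hx0, hxG, hgen, hb⟩ := Pool.Agent.TH214.RM.exists_ff G hG d hGd hX
  obtain ⟨h1, h2⟩ := aff_core G x hx0 (dh_ne_zero G hG.ne_zero d hGd) hxG hgen
    (fun e P hPe hP => Pool.Agent.W418.hyp_dvd x hx0 hgen b hb G hG.prime d hGd hxG e P hPe hP)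
  exact ⟨h1, F, inferInstance, inferInstance, x, b, hx0, hxG, hgen, hb, h2⟩

end Pool.Agent.K3h67.ND
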